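import Mathlib
import Pool.Agent.Q1.M6b.Wall2

set_option autoImplicit false
open Finset

/-! # Expansion of a weighted sum: constant weights on the image of a set of points

Three disjoint sets of labels: `C` (kept explicitly), `W.image tp` (weight `lam`), `Bk` (weight `1/2`). -/

namespace Pool.Agent.H76.R45

open Pool.Agent.Q1 Pool.Agent.Q1.M6b.Gd

variable {α : Type*} [DecidableEq α] {ι : Type*} [DecidableEq ι]

lemma Ec_zero (A : Finset α) (F : Finset α → ℂ) : Ec (fun _ => (0 : ℂ)) A F = F ∅ := by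
  induction A using Finset.induction_on generalizing F with
  | empty => simp
  | insert e A he ih => rw [Ec_insert _ he, ih, ih]; ring

lemma Ec_eq_sum (q : α → ℂ) (A : Finset α) (F : Finset α → ℂ) :
    Ec q A F = ∑ s ∈ A.powerset, ((∏ e ∈ s, q e) * ∏ e ∈ A \ s, (1 - q e)) * F s := rfl

/-- small constant weights -/
lemma Ec_small (lam : ℂ) (A : Finset α) (F : Finset α → ℂ) :
    Ec (fun _ => lam) A F = ∑ w ∈ A.powerset, lam ^ w.card * alt w F := by
  have h := Ec_expand (fun _ => (0 : ℂ)) (fun _ => lam) A F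
  have e : (fun e : α => (fun _ => (0 : ℂ)) e + (fun _ => lam) e) = fun _ => lam := by
    funext x; simp
  rw [e] at h
  rw [h]
  refine sum_congr rfl fun w _ => ?_
  rw [prod_const, Ec_zero]
  congr 2
  funext T
  rw [empty_union]

lemma alt_smul (w : Finset ι) (c : ℂ) (G : Finset ι → ℂ) :
    alt w (fun T => c * G T) = c * alt w G := by
  unfold alt
  rw [mul_sum]
  exact sum_congr rfl fun T _ => by ring

lemma alt_sum {κ : Type*} (s : Finset κ) (w : Finset ι) (G : κ → Finset ι → ℂ) :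
    alt w (fun T => ∑ i ∈ s, G i T) = ∑ i ∈ s, alt w (G i) := by
  unfold alt
  simp only [mul_sum]
  exact sum_comm

lemma alt_congr {w : Finset ι} {G H : Finset ι → ℂ} (h : ∀ T, T ⊆ w → G T = H T) :
    alt w G = alt w H :=
  sum_congr rfl fun T hT => by rw [h T (mem_powerset.1 hT)]

lemma alt_image {W : Finset ι} {tp : ι → α} (hinj : Set.InjOn tp (W : Set ι)) {v : Finset ι}
    (hv : v ⊆ W) (G : Finset α → ℂ) :
    alt (v.image tp) G = alt v (fun T => G (T.image tp)) := by
  unfold alt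
  have hiv : Set.InjOn tp (v : Set ι) := hinj.mono (by exact_mod_cast hv)
  rw [powerset_image, sum_image (image_injOn_powerset_of_injOn hiv)]
  refine sum_congr rfl fun T hT => ?_
  have hT := mem_powerset.1 hT
  rw [card_image_of_injOn hiv, card_image_of_injOn (hiv.mono (by exact_mod_cast hT))]

/-- **The expansion.** -/
theorem expand_gen {q : α → ℂ} {C Bk : Finset α} {W : Finset ι} {tp : ι → α} {lam : ℂ}
    (hinj : Set.InjOn tp (W : Set ι)) (hd1 : Disjoint C (W.image tp ∪ Bk))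
    (hd2 : Disjoint (W.image tp) Bk) (hT : ∀ e ∈ W.image tp, q e = lam)
    (hB : ∀ e ∈ Bk, q e = 1 / 2) (F : Finset α → ℂ) :
    Ec q (C ∪ (W.image tp ∪ Bk)) F = ∑ s ∈ C.powerset,
      ((∏ e ∈ s, q e) * ∏ e ∈ C \ s, (1 - q e)) * ∑ l ∈ range (W.card + 1), lam ^ l *
        ∑ v ∈ powersetCard l W, alt v (fun T => Ec (fun _ => (1 / 2 : ℂ)) Bk
          (fun ω => F (ω ∪ T.image tp ∪ s))) := by
  rw [Ec_union q hd1, Ec_eq_sum]
  refine sum_congr rfl fun s _ => ?_
  congr 1
  rw [Ec_union q hd2, Ec_congr_q (q' := fun _ => lam) hT, Ec_small, powerset_image,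
    sum_image (image_injOn_powerset_of_injOn hinj), sum_powerset]
  refine sum_congr rfl fun l _ => ?_
  rw [mul_sum]
  refine sum_congr rfl fun v hv => ?_
  obtain ⟨hv1, hv2⟩ := mem_powersetCard.1 hv
  rw [alt_image hinj hv1, card_image_of_injOn (hinj.mono (by exact_mod_cast hv1)), hv2]
  congr 1
  refine alt_congr fun T _ => ?_
  rw [Ec_congr_q (q' := fun _ => (1 / 2 : ℂ)) hB]
  refine Ec_congr fun ω _ => ?_
  congr 1
  ext x
  simp only [mem_union]
  tauto

/-- a polynomial under the sum -/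
theorem expand_poly {q : α → ℂ} {C Bk : Finset α} {W : Finset ι} {tp : ι → α} {lam : ℂ}
    (hinj : Set.InjOn tp (W : Set ι)) (hd1 : Disjoint C (W.image tp ∪ Bk))
    (hd2 : Disjoint (W.image tp) Bk) (hT : ∀ e ∈ W.image tp, q e = lam)
    (hB : ∀ e ∈ Bk, q e = 1 / 2) (κ : ℂ) (n : ℕ) (G : ℕ → Finset α → ℂ) :
    Ec q (C ∪ (W.image tp ∪ Bk)) (fun ω => ∑ m ∈ range n, κ ^ m * G m ω) =
      ∑ m ∈ range n, ∑ l ∈ range (W.card + 1), ∑ s ∈ C.powerset, κ ^ m * lam ^ l *
        ((∏ e ∈ s, q e) * ∏ e ∈ C \ s, (1 - q e)) *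
        ∑ v ∈ powersetCard l W, alt v (fun T => Ec (fun _ => (1 / 2 : ℂ)) Bk
          (fun ω => G m (ω ∪ T.image tp ∪ s))) := by
  rw [Ec_sum]
  refine sum_congr rfl fun m _ => ?_
  rw [Ec_smul, expand_gen hinj hd1 hd2 hT hB, sum_comm' (t' := C.powerset)
    (s' := fun _ => range (W.card + 1)) (by intro x y; tauto), mul_sum]
  refine sum_congr rfl fun s _ => ?_
  rw [mul_sum, mul_sum]
  refine sum_congr rfl fun l _ => ?_
  ring

end Pool.Agent.H76.R45
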