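import Mathlib
import Pool.Agent.H30.Mid.MidXT
import Pool.Agent.H46.G1.WSum
import Pool.Agent.H76.R45.ExpAbs
import Pool.Agent.H74.R45.Pot

set_option autoImplicit false
open Finset

/-! # The exact expansion of the increments on the row `j - 1` of the rectangle (R45)

`0 < j < h`, `j` even. `NS` : number of the ties (`true` : right wall below the row, `false` : left wall
above the row), `tp` : their labels, the distance to the row grows with the second coordinate; `CN` : the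
two real corner tiles; `BK` : the labels of the rectangle without the row. `ET_eq`, `qT_tp`, `qT_BK`,
`qT_CN` : decomposition of the random labels of the tied form and their weights. `FJ_expand` : the
increment is a polynomial in `κ` (row) and in the open weight of the ties. -/

namespace Pool.Agent.H76.R45

open Pool.Agent.H75.Perc Pool.Agent.H75.TwoArm Pool.Agent.Q1 Pool.Agent.H33.Q1
open Pool.Agent.H81.G1 Pool.Agent.Q1.M6b.Gd
open Pool.Agent.H74.R45 Pool.Agent.H13.R45 Pool.Agent.H30.Mid Pool.Agent.H46.G1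
open Pool.Agent.H69.M6b (lbt lbt_inj lbt_odd)

/-- number of ties: right wall below the row (`true`), left wall above the row (`false`) -/
def NS (_w h j : ℤ) (s : Bool) : ℕ := if s then (j / 2).toNat else ((h - j) / 2 - 1).toNat

/-- labels of the ties -/
def tp (w j : ℤ) (p : Bool × ℤ) : ℤ × ℤ :=
  if p.1 then lt (w, j - 3 - 2 * p.2) else lt (-1, j + 2 + 2 * p.2)

/-- the real corner tiles -/
def CN (h j : ℤ) : Finset (ℤ × ℤ) := {lt (-1, j), lt (-1, h - 1)}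

/-- the labels of the rectangle without the row -/
noncomputable def BK (w h j : ℤ) : Finset (ℤ × ℤ) := RT 0 w (-1) h \ RS w.toNat 0 (j - 1)

/-- the labels of the ties -/
noncomputable def TI (w h j : ℤ) : Finset (ℤ × ℤ) := (Wp (NS w h j)).image (tp w j)

variable {w h j x y : ℤ} {a b : ℂ}

lemma odd_TI {e : ℤ × ℤ} (he : e ∈ TI w h j) : (e.1 + e.2) % 2 = 1 := by
  unfold TI at he
  obtain ⟨p, -, rfl⟩ := mem_image.1 he
  unfold tp
  split_ifs <;> exact lt_odd _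

lemma odd_CN {e : ℤ × ℤ} (he : e ∈ CN h j) : (e.1 + e.2) % 2 = 1 := by
  unfold CN at he
  rw [mem_insert, mem_singleton] at he
  rcases he with rfl | rfl <;> exact lt_odd _

lemma odd_BK {e : ℤ × ℤ} (he : e ∈ BK w h j) : (e.1 + e.2) % 2 = 1 :=
  odd_RT (mem_sdiff.1 he).1

lemma odd_RSw {N : ℕ} {x0 y0 : ℤ} {e : ℤ × ℤ} (he : e ∈ RS N x0 y0) : (e.1 + e.2) % 2 = 1 := by
  obtain ⟨c, rfl⟩ := mem_RS.1 he
  exact lbt_odd _ _

lemma lt_eq_iff {x y x' y' : ℤ} : lt (x, y) = lt (x', y') ↔ x = x' ∧ y = y' := by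
  constructor
  · intro h
    have := lt_inj h
    simpa using this
  · rintro ⟨rfl, rfl⟩; rfl

lemma mem_TI (g0 : 0 < j) (g1 : j < h) (j2 : j % 2 = 0) (h2 : h % 2 = 0) :
    lt (x, y) ∈ TI w h j ↔ (x = -1 ∧ j < y ∧ y < h ∧ y % 2 = 0) ∨
      (x = w ∧ -1 ≤ y ∧ y < j - 1 ∧ y % 2 = 1) := by
  unfold TI
  rw [mem_image]
  constructor
  · rintro ⟨⟨s, t⟩, hp, he⟩
    rw [mem_Wp] at hp
    unfold tp at he
    unfold NS at hp
    simp only at hp he
    cases s
    · rw [if_neg (by simp), lt_eq_iff] at he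
      rw [if_neg (by simp)] at hp
      omega
    · rw [if_pos rfl, lt_eq_iff] at he
      rw [if_pos rfl] at hp
      omega
  · rintro (h3 | h3)
    · refine ⟨(false, (y - j - 2) / 2), mem_Wp.2 ?_, ?_⟩
      · unfold NS
        simp only [Bool.false_eq_true, if_false]
        omega
      · unfold tp
        simp only [Bool.false_eq_true, if_false]
        rw [lt_eq_iff]; omega
    · refine ⟨(true, (j - 3 - y) / 2), mem_Wp.2 ?_, ?_⟩
      · unfold NS
        simp only [if_true]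
        omega
      · unfold tp
        simp only [if_true]
        rw [lt_eq_iff]; omega

lemma mem_CN : lt (x, y) ∈ CN h j ↔ x = -1 ∧ (y = j ∨ y = h - 1) := by
  unfold CN
  rw [mem_insert, mem_singleton, lt_eq_iff, lt_eq_iff]
  tauto

lemma mem_RSw (hw : 0 ≤ w) : lt (x, y) ∈ RS w.toNat 0 (j - 1) ↔ 0 ≤ x ∧ x < w ∧ y = j - 1 :=
  mem_RSx (N := w.toNat) (Int.toNat_of_nonneg hw)

lemma mem_BKx (hw : 0 ≤ w) : lt (x, y) ∈ BK w h j ↔
    0 ≤ x ∧ x < w ∧ -1 ≤ y ∧ y < h ∧ y ≠ j - 1 := by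
  unfold BK
  rw [mem_sdiff, lt_mem_RT, mem_RSw hw]
  omega

lemma tp_inj : Set.InjOn (tp w j) (Wp (NS w h j) : Set (Bool × ℤ)) ∨ w = -1 := by
  by_cases hw : w = -1
  · exact Or.inr hw
  left
  rintro ⟨s, t⟩ - ⟨s', t'⟩ - he
  unfold tp at he
  simp only at he
  cases s <;> cases s' <;> simp only [Bool.false_eq_true, if_false, if_true] at he <;>
    rw [lt_eq_iff] at he <;> first | omega | (refine Prod.ext rfl ?_; simp only; omega)

lemma tp_injOn (hw : 0 ≤ w) : Set.InjOn (tp w j) (Wp (NS w h j) : Set (Bool × ℤ)) :=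
  tp_inj.resolve_right (by omega)

/-- **(a)** decomposition of the random labels -/
theorem ET_eq (O : Out w h) (g0 : 0 < j) (g1 : j < h) (j2 : j % 2 = 0) :
    ET w h j = RS w.toNat 0 (j - 1) ∪ (CN h j ∪ (TI w h j ∪ BK w h j)) := by
  have hw := O.hw
  have h2 := O.h2
  have w2 := O.w2
  ext e
  constructor
  · intro he
    obtain ⟨x, y, rfl⟩ := exists_lt (odd_EJ (ET_sub he))
    rw [Pool.Agent.H13.R45.mem_ET (by omega) w2 h2 g0.le g1.le j2, mem_EJ] at he
    obtain ⟨he1, he2⟩ := he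
    have c1 : ¬ (x = -1 ∧ j < y ∧ y + 1 < h ∧ y % 2 = 1) := fun h => he2 (Or.inl h)
    have c2 : ¬ (x = w ∧ 0 ≤ y ∧ y < j - 1 ∧ y % 2 = 0) := fun h => he2 (Or.inr (Or.inl h))
    clear he2
    rcases he1 with h3 | h3 | h3
    · by_cases hy : y = j - 1
      · exact mem_union_left _ ((mem_RSw (by omega)).2 ⟨h3.1, h3.2.1, hy⟩)
      · exact mem_union_right _ (mem_union_right _ (mem_union_right _
          ((mem_BKx (by omega)).2 ⟨h3.1, h3.2.1, h3.2.2.1, h3.2.2.2, hy⟩)))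
    · by_cases hy : y = j ∨ y = h - 1
      · exact mem_union_right _ (mem_union_left _ (mem_CN.2 ⟨h3.1, hy⟩))
      · refine mem_union_right _ (mem_union_right _ (mem_union_left _
          ((mem_TI g0 g1 j2 h2).2 (Or.inl ⟨h3.1, ?_, h3.2.2, ?_⟩))))
        · omega
        · rcases Int.emod_two_eq_zero_or_one y with h4 | h4
          · exact h4
          · exact absurd ⟨h3.1, by omega, by omega, h4⟩ c1
    · refine mem_union_right _ (mem_union_right _ (mem_union_left _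
          ((mem_TI g0 g1 j2 h2).2 (Or.inr ⟨h3.1, h3.2.1, h3.2.2, ?_⟩))))
      rcases Int.emod_two_eq_zero_or_one y with h4 | h4
      · exact absurd ⟨h3.1, by omega, h3.2.2, h4⟩ c2
      · exact h4
  · intro he
    rw [mem_union, mem_union, mem_union] at he
    have key : ∀ {x y : ℤ}, ((0 ≤ x ∧ x < w ∧ -1 ≤ y ∧ y < h) ∨ (x = -1 ∧ j ≤ y ∧ y < h ∧
        (y % 2 = 0 ∨ y = h - 1)) ∨ (x = w ∧ -1 ≤ y ∧ y < j - 1 ∧ y % 2 = 1)) →
        lt (x, y) ∈ ET w h j := by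
      intro x y h3
      rw [Pool.Agent.H13.R45.mem_ET (by omega) w2 h2 g0.le g1.le j2, mem_EJ]
      rcases h3 with h3 | h3 | h3
      · refine ⟨Or.inl h3, ?_⟩
        rintro (h4 | h4 | h4 | h4) <;> omega
      · refine ⟨Or.inr (Or.inl ⟨h3.1, h3.2.1, h3.2.2.1⟩), ?_⟩
        rintro (h4 | h4 | h4 | h4) <;> omega
      · refine ⟨Or.inr (Or.inr ⟨h3.1, h3.2.1, h3.2.2.1⟩), ?_⟩
        rintro (h4 | h4 | h4 | h4) <;> omega
    rcases he with he | he | he | he
    · obtain ⟨x, y, rfl⟩ := exists_lt (odd_RSw he)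
      rw [mem_RSw (by omega)] at he
      exact key (Or.inl ⟨he.1, he.2.1, by omega, by omega⟩)
    · obtain ⟨x, y, rfl⟩ := exists_lt (odd_CN he)
      rw [mem_CN] at he
      exact key (Or.inr (Or.inl ⟨he.1, by omega, by omega, by omega⟩))
    · obtain ⟨x, y, rfl⟩ := exists_lt (odd_TI he)
      rw [mem_TI g0 g1 j2 h2] at he
      rcases he with he | he
      · exact key (Or.inr (Or.inl ⟨he.1, by omega, he.2.2.1, Or.inl he.2.2.2⟩))
      · exact key (Or.inr (Or.inr ⟨he.1, he.2.1, he.2.2.1, he.2.2.2⟩))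
    · obtain ⟨x, y, rfl⟩ := exists_lt (odd_BK he)
      rw [mem_BKx (by omega)] at he
      exact key (Or.inl ⟨he.1, he.2.1, he.2.2.1, he.2.2.2.1⟩)

lemma disj_TI_BK (hw : 0 ≤ w) (g0 : 0 < j) (g1 : j < h) (j2 : j % 2 = 0) (h2 : h % 2 = 0) :
    Disjoint (TI w h j) (BK w h j) := by
  rw [disjoint_left]
  intro e h3 h4
  obtain ⟨x, y, rfl⟩ := exists_lt (odd_TI h3)
  rw [mem_TI g0 g1 j2 h2] at h3
  rw [mem_BKx hw] at h4
  omega

lemma disj_CN (hw : 0 ≤ w) (g0 : 0 < j) (g1 : j < h) (j2 : j % 2 = 0) (h2 : h % 2 = 0) :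
    Disjoint (CN h j) (TI w h j ∪ BK w h j) := by
  rw [disjoint_left]
  intro e h3 h4
  obtain ⟨x, y, rfl⟩ := exists_lt (odd_CN h3)
  rw [mem_CN] at h3
  rw [mem_union, mem_TI g0 g1 j2 h2, mem_BKx hw] at h4
  omega

lemma disj_RS (hw : 0 ≤ w) (g0 : 0 < j) (g1 : j < h) (j2 : j % 2 = 0) (h2 : h % 2 = 0) :
    Disjoint (RS w.toNat 0 (j - 1)) (CN h j ∪ (TI w h j ∪ BK w h j)) := by
  rw [disjoint_left]
  intro e h3 h4
  obtain ⟨x, y, rfl⟩ := exists_lt (odd_RSw h3)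
  rw [mem_RSw hw] at h3
  rw [mem_union, mem_union, mem_CN, mem_TI g0 g1 j2 h2, mem_BKx hw] at h4
  omega

/-- the random labels without the row -/
theorem ET_sdiff (O : Out w h) (g0 : 0 < j) (g1 : j < h) (j2 : j % 2 = 0) :
    ET w h j \ RS w.toNat 0 (j - 1) = CN h j ∪ (TI w h j ∪ BK w h j) := by
  have hw := O.hw
  rw [ET_eq O g0 g1 j2, union_sdiff_cancel_left (disj_RS (by omega) g0 g1 j2 O.h2)]

/-- the rectangle without the row = the labels below and above the row -/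
lemma BK_sdiff (hw : 0 ≤ w) (g0 : 0 < j) (g1 : j < h) (B : Finset (ℤ × ℤ)) :
    BK w h j \ B = BL w j B ∪ BU w h j B := by
  ext e
  constructor
  · intro he
    obtain ⟨h3, h4⟩ := mem_sdiff.1 he
    obtain ⟨x, y, rfl⟩ := exists_lt (odd_BK h3)
    rw [mem_BKx hw] at h3
    rcases lt_or_ge y j with hy | hy
    · exact mem_union_left _ (mem_BL.2 ⟨⟨h3.1, h3.2.1, h3.2.2.1, by omega⟩, h4⟩)
    · exact mem_union_right _ (mem_BU.2 ⟨⟨h3.1, h3.2.1, hy, h3.2.2.2.1⟩, h4⟩)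
  · intro he
    rcases mem_union.1 he with he | he
    · obtain ⟨x, y, rfl⟩ := exists_lt (odd_BL he)
      obtain ⟨h3, h4⟩ := mem_BL.1 he
      exact mem_sdiff.2 ⟨(mem_BKx hw).2 ⟨h3.1, h3.2.1, h3.2.2.1, by omega, by omega⟩, h4⟩
    · obtain ⟨x, y, rfl⟩ := exists_lt (odd_BU he)
      obtain ⟨h3, h4⟩ := mem_BU.1 he
      exact mem_sdiff.2 ⟨(mem_BKx hw).2 ⟨h3.1, h3.2.1, by omega, h3.2.2.2, by omega⟩, h4⟩

lemma hasRow_XT (O : Out w h) (h0 : 0 ≤ j) (h1 : j ≤ h) (j2 : j % 2 = 0) (g0 : 0 < j)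
    (g1 : j < h) : HasRow (XT O j h0 h1 j2) w.toNat 0 (j - 1) := by
  unfold HasRow
  rw [XT_E, ET_eq O g0 g1 j2]
  exact subset_union_left

/-! ### Weights -/

lemma qT_TI (hw : 2 ≤ w) (g0 : 0 < j) (g1 : j < h) (j2 : j % 2 = 0) (h2 : h % 2 = 0) {e : ℤ × ℤ}
    (he : e ∈ TI w h j) : qT w h j a b e = 1 - b * (1 - b) := by
  obtain ⟨x, y, rfl⟩ := exists_lt (odd_TI he)
  rw [mem_TI g0 g1 j2 h2] at he
  unfold qT
  rw [tt_lt]
  simp only
  rw [if_pos (by omega)]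

lemma qT_BK (hw : 2 ≤ w) (g0 : 0 < j) (g1 : j < h) {e : ℤ × ℤ} (he : e ∈ BK w h j) :
    qT w h j a b e = 1 / 2 := by
  obtain ⟨x, y, rfl⟩ := exists_lt (odd_BK he)
  rw [mem_BKx (by omega)] at he
  unfold qT qJ
  rw [tt_lt]
  simp only
  rw [if_neg (by omega), if_neg (by omega), if_neg (by omega), if_neg (by omega)]

/-- the open weights of the real corner tiles -/
noncomputable def qC (j : ℤ) (b : ℂ) (e : ℤ × ℤ) : ℂ := if e = lt (-1, j) then b else 1 - b

lemma qT_CN (g0 : 0 < j) (g1 : j < h) (j2 : j % 2 = 0) (h2 : h % 2 = 0) {e : ℤ × ℤ}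
    (he : e ∈ CN h j) : qT w h j a b e = qC j b e := by
  unfold qC
  obtain ⟨x, y, rfl⟩ := exists_lt (odd_CN he)
  rw [mem_CN] at he
  unfold qT qJ
  rw [tt_lt]
  simp only [lt_eq_iff]
  rcases he with ⟨rfl, rfl | rfl⟩
  · rw [if_neg (by omega), if_neg (by omega), if_pos (by omega), if_pos (by omega),
      if_pos (by omega)]
  · rw [if_neg (by omega), if_neg (by omega), if_pos (by omega), if_neg (by omega),
      if_neg (by omega)]

/-! ### The end of the row at the corner `ve (x, j - 1)` -/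

/-- the end of the row at the corner `ve (x, j - 1)` -/
def ye (w x : ℤ) (h0 : 0 ≤ x) (h1 : x < w) : Fin w.toNat × Dir :=
  if x % 2 = 0 then (⟨x.toNat, by omega⟩, .W) else (⟨(x - 1).toNat, by omega⟩, .E)

/-- **(b)** -/
lemma inc_ye (j2 : j % 2 = 0) (h0 : 0 ≤ x) (h1 : x < w) :
    inc (rp 0 (j - 1)) (ye w x h0 h1) = true := by
  unfold ye inc
  split_ifs with hx
  · have : rp 0 (j - 1) (⟨x.toNat, by omega⟩ : Fin w.toNat) = true := by
      rw [rp_true]; simp only; omega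
    simp only [this, Dir.v, Bool.xor_false]
  · have : rp 0 (j - 1) (⟨(x - 1).toNat, by omega⟩ : Fin w.toNat) = true := by
      rw [rp_true]; simp only; omega
    simp only [this, Dir.v, Bool.xor_false]

lemma rcr_ye (j2 : j % 2 = 0) (h0 : 0 ≤ x) (h1 : x < w) :
    rcr 0 (j - 1) (ye w x h0 h1) = ve (x, j - 1) := by
  unfold ye rcr rl lbt ve
  split_ifs with hx
  · unfold Pool.Agent.H69.M6b.crn
    refine Prod.ext ?_ ?_ <;> simp only <;> omega
  · unfold Pool.Agent.H69.M6b.crn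
    refine Prod.ext ?_ ?_ <;> simp only <;> omega

/-! ### The expansion -/

/-- the coefficients of the expansion -/
noncomputable def HH (O : Out w h) (h0 : 0 ≤ j) (h1 : j ≤ h) (j2 : j % 2 = 0)
    (y : Fin w.toNat × Dir) (m l : ℕ) (s : Finset (ℤ × ℤ)) : ℂ :=
  ∑ v ∈ powersetCard l (Wp (NS w h j)), alt v (fun T => Ec (fun _ => (1 / 2 : ℂ)) (BK w h j)
    (fun ω => ∑ S ∈ powersetCard m (univ : Finset (Fin w.toNat)),
      AR (XT O j h0 h1 j2) 0 (j - 1) y (cA S w6) (cB S w6⁻¹) (ω ∪ T.image (tp w j) ∪ s)))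

/-- **(c)** for the tied form -/
theorem incW_expand (O : Out w h) (h0 : 0 ≤ j) (h1 : j ≤ h) (j2 : j % 2 = 0) (g0 : 0 < j)
    (g1 : j < h) (b κ : ℂ) (y : Fin w.toNat × Dir) :
    (XT O j h0 h1 j2).incW (qT w h j (w6 + κ) b) (rcr 0 (j - 1) y) =
      ∑ m ∈ range (w.toNat + 1), ∑ l ∈ range ((Wp (NS w h j)).card + 1),
        ∑ s ∈ (CN h j).powerset, κ ^ m * (1 - b * (1 - b)) ^ l *
          ((∏ e ∈ s, qC j b e) * ∏ e ∈ CN h j \ s, (1 - qC j b e)) *
          HH O h0 h1 j2 y m l s := by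
  have hw := O.hw
  have h2 := O.h2
  have hN : ((w.toNat : ℕ) : ℤ) = w := Int.toNat_of_nonneg (by omega)
  have e1 : wA (rl (N := w.toNat) 0 (j - 1)) (rp 0 (j - 1)) (qT w h j (w6 + κ) b) =
      fun _ => w6 + κ := by
    funext c; exact wA_row hN g0 g1 c
  have e2 : wB (rl (N := w.toNat) 0 (j - 1)) (rp 0 (j - 1)) (qT w h j (w6 + κ) b) =
      fun _ => w6⁻¹ - κ := by
    funext c
    rw [wB_row hN g0 g1 c, w6_inv]
    ring
  rw [incW_row (hasRow_XT O h0 h1 j2 g0 g1), e1, e2]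
  have e3 : (XT O j h0 h1 j2).E \ RS w.toNat 0 (j - 1) = CN h j ∪ (TI w h j ∪ BK w h j) := by
    rw [XT_E]; exact ET_sdiff O g0 g1 j2
  rw [e3]
  have e4 : Ec (qT w h j (w6 + κ) b) (CN h j ∪ (TI w h j ∪ BK w h j))
      (AR (XT O j h0 h1 j2) 0 (j - 1) y (fun _ => w6 + κ) (fun _ => w6⁻¹ - κ)) =
      Ec (qT w h j (w6 + κ) b) (CN h j ∪ (TI w h j ∪ BK w h j))
      (fun ω => ∑ m ∈ range (w.toNat + 1), κ ^ m *
        ∑ S ∈ powersetCard m (univ : Finset (Fin w.toNat)),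
          AR (XT O j h0 h1 j2) 0 (j - 1) y (cA S w6) (cB S w6⁻¹) ω) := by
    refine Ec_congr fun ω _ => ?_
    rw [AR_coupons]
    have h3 := sum_powerset (univ : Finset (Fin w.toNat)) (fun S => κ ^ S.card *
      AR (XT O j h0 h1 j2) 0 (j - 1) y (cA S w6) (cB S w6⁻¹) ω)
    rw [powerset_univ, card_univ, Fintype.card_fin] at h3
    rw [h3]
    refine sum_congr rfl fun m _ => ?_
    rw [mul_sum]
    refine sum_congr rfl fun S hS => ?_
    rw [(mem_powersetCard.1 hS).2]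
  rw [e4]
  unfold TI
  rw [expand_poly (lam := 1 - b * (1 - b)) (tp_injOn (by omega))
    (disj_CN (by omega) g0 g1 j2 h2) (disj_TI_BK (by omega) g0 g1 j2 h2)
    (fun e he => qT_TI (by omega) g0 g1 j2 h2 he) (fun e he => qT_BK (by omega) g0 g1 he)]
  refine sum_congr rfl fun m _ => sum_congr rfl fun l _ => sum_congr rfl fun s hs => ?_
  have hs := mem_powerset.1 hs
  rw [prod_congr rfl (fun e he => qT_CN (a := w6 + κ) (b := b) (w := w) g0 g1 j2 h2 (hs he)),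
    prod_congr (s₁ := CN h j \ s) rfl (fun e he => by
      rw [qT_CN (a := w6 + κ) (b := b) (w := w) g0 g1 j2 h2 (mem_sdiff.1 he).1])]
  rfl

/-- the points inside the caps are not on the row -/
lemma not_PTp_row (g0 : 0 < j) (g1 : j < h) (h0 : 0 ≤ x) (h1 : x < w) (hy : y = j - 1 ∨ y = j) :
    ¬ PTp w h j (x, y) := by
  unfold PTp
  simp only
  omega

/-- a far root corner is not at the points inside the caps -/
lemma far_root (O : Out w h) (h0 : 0 ≤ j) (h1 : j ≤ h) (hr : RootFar O) :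
    ∀ g ∈ PT w h j, ¬ Ag g O.c0 := by
  rintro ⟨x, y⟩ hg ha
  have hw := O.hw
  rw [mem_PT (by omega) h0 h1] at hg
  unfold PTp at hg
  simp only at hg
  obtain ⟨u, v, e⟩ := exists_lt (odd_plab' O.c0)
  have h3 := hr u v e
  obtain ⟨X, Y, hc | hc⟩ : ∃ X Y, O.c0 = ve (X, Y) ∨ O.c0 = he (X, Y) := by
    rcases corner_cases O.c0 with ⟨X, Y, h⟩ | ⟨X, Y, h⟩
    · exact ⟨X, Y, Or.inl h⟩
    · exact ⟨X, Y, Or.inr h⟩
  · rw [hc, ag_ve] at ha
    rw [hc] at e
    unfold plab ve lt at e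
    simp only [Prod.mk.injEq] at ha e
    split_ifs at e <;> simp only [Prod.mk.injEq] at e <;> omega
  · rw [hc, ag_he] at ha
    rw [hc] at e
    unfold plab he lt at e
    simp only [Prod.mk.injEq] at ha e
    split_ifs at e <;> simp only [Prod.mk.injEq] at e <;> omega

/-- **(c) The exact expansion of the increments on the row.** -/
theorem FJ_expand (O : Out w h) (h0 : 0 ≤ j) (h1 : j ≤ h) (j2 : j % 2 = 0) (g0 : 0 < j)
    (g1 : j < h) (hr : ∀ g ∈ PT w h j, ¬ Ag g O.c0) (b κ : ℂ) (x0 : 0 ≤ x) (x1 : x < w) :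
    FJ O (w6 + κ) b j (ve (x, j - 1)) =
      ∑ m ∈ range (w.toNat + 1), ∑ l ∈ range ((Wp (NS w h j)).card + 1),
        ∑ s ∈ (CN h j).powerset, κ ^ m * (1 - b * (1 - b)) ^ l *
          ((∏ e ∈ s, qC j b e) * ∏ e ∈ CN h j \ s, (1 - qC j b e)) *
          HH O h0 h1 j2 (ye w x x0 x1) m l s := by
  rw [← incW_expand O h0 h1 j2 g0 g1 b κ (ye w x x0 x1), rcr_ye j2 x0 x1, FJ_eq h0 h1,
    XJ_tied_ve hr (not_PTp_row g0 g1 x0 x1 (Or.inl rfl))
      (not_PTp_row g0 g1 x0 x1 (Or.inr (by ring)))]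

end Pool.Agent.H76.R45
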