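import Mathlib
import Pool.Agent.H76.R45.Expand
import Pool.Agent.H46.G1.WTie

set_option autoImplicit false
open Finset

/-! # The exact expansion, ties indexed by their labels

The same as `Expand.lean` with the set `Ti w h j` of the labels of the ties and `BL w j ∅ ∪ BU w h j ∅`. -/

namespace Pool.Agent.H76.R45

open Pool.Agent.H75.Perc Pool.Agent.H75.TwoArm Pool.Agent.Q1 Pool.Agent.H33.Q1
open Pool.Agent.H81.G1 Pool.Agent.Q1.M6b.Gd
open Pool.Agent.H74.R45 Pool.Agent.H13.R45 Pool.Agent.H30.Mid Pool.Agent.H46.G1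
open Pool.Agent.H69.M6b (lbt lbt_inj lbt_odd)

section abs

variable {α : Type*} [DecidableEq α]

/-- a polynomial under the sum, weights `lam` on `A` -/
theorem expand_poly' {q : α → ℂ} {C A Bk : Finset α} {lam : ℂ} (hd1 : Disjoint C (A ∪ Bk))
    (hd2 : Disjoint A Bk) (hT : ∀ e ∈ A, q e = lam) (hB : ∀ e ∈ Bk, q e = 1 / 2) (κ : ℂ) (n : ℕ)
    (G : ℕ → Finset α → ℂ) :
    Ec q (C ∪ (A ∪ Bk)) (fun ω => ∑ m ∈ range n, κ ^ m * G m ω) =
      ∑ m ∈ range n, ∑ l ∈ range (A.card + 1), ∑ s ∈ C.powerset, κ ^ m * lam ^ l *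
        ((∏ e ∈ s, q e) * ∏ e ∈ C \ s, (1 - q e)) *
        ∑ v ∈ powersetCard l A, alt v (fun T => Ec (fun _ => (1 / 2 : ℂ)) Bk
          (fun ω => G m (ω ∪ T ∪ s))) := by
  have h := expand_poly (q := q) (C := C) (Bk := Bk) (W := A) (tp := id) (lam := lam)
    (Set.injOn_id _) (by rw [image_id]; exact hd1) (by rw [image_id]; exact hd2)
    (by rw [image_id]; exact hT) hB κ n G
  simp only [image_id] at h
  exact h

end abs

variable {w h j x y : ℤ} {a b : ℂ}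

lemma TI_eq (g0 : 0 < j) (g1 : j < h) (j2 : j % 2 = 0) (h2 : h % 2 = 0) :
    TI w h j = Ti w h j := by
  ext e
  constructor
  · intro he
    obtain ⟨x, y, rfl⟩ := exists_lt (odd_TI he)
    rw [mem_TI g0 g1 j2 h2] at he
    unfold Ti
    rw [mem_union, mem_TiL, mem_TiR]
    exact he
  · intro he
    unfold Ti at he
    have ho : (e.1 + e.2) % 2 = 1 := by
      rcases mem_union.1 he with he | he
      · exact odd_TiL he
      · exact odd_TiR he
    obtain ⟨x, y, rfl⟩ := exists_lt ho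
    rw [mem_union, mem_TiL, mem_TiR] at he
    rw [mem_TI g0 g1 j2 h2]
    exact he

lemma BK_eq (hw : 0 ≤ w) (g0 : 0 < j) (g1 : j < h) :
    BK w h j = BL w j ∅ ∪ BU w h j ∅ := by
  rw [← BK_sdiff hw g0 g1 ∅, sdiff_empty]

lemma w6_zt : w6 = zt ^ 4 := by rw [zt_four]; rfl

lemma w6_zt' : w6⁻¹ = zt ^ (-4 : ℤ) := by
  rw [w6_zt, zpow_neg]; norm_cast

/-- **Decomposition of the random labels.** -/
theorem ET_eq2 (O : Out w h) (g0 : 0 < j) (g1 : j < h) (j2 : j % 2 = 0) {N : ℕ}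
    (hN : (N : ℤ) = w) :
    ET w h j = RS N 0 (j - 1) ∪ (CN h j ∪ (Ti w h j ∪ (BL w j ∅ ∪ BU w h j ∅))) := by
  have hw := O.hw
  obtain rfl : N = w.toNat := by omega
  rw [ET_eq O g0 g1 j2, TI_eq g0 g1 j2 O.h2, BK_eq (by omega) g0 g1]

/-- the coefficients of the expansion -/
noncomputable def HC {N : ℕ} (O : Out w h) (h0 : 0 ≤ j) (h1 : j ≤ h) (j2 : j % 2 = 0)
    (y : Fin N × Dir) (m l : ℕ) (s : Finset (ℤ × ℤ)) : ℂ :=
  ∑ v ∈ powersetCard l (Ti w h j), alt v (fun T => Ec (fun _ => (1 / 2 : ℂ))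
    (BL w j ∅ ∪ BU w h j ∅) (fun ω => ∑ S ∈ powersetCard m (univ : Finset (Fin N)),
      AR (XT O j h0 h1 j2) 0 (j - 1) y (cA S (zt ^ 4)) (cB S (zt ^ (-4 : ℤ))) (ω ∪ T ∪ s)))

/-- **The expansion for the tied form.** -/
theorem incW_expand2 (O : Out w h) (h0 : 0 ≤ j) (h1 : j ≤ h) (j2 : j % 2 = 0) (g0 : 0 < j)
    (g1 : j < h) {N : ℕ} (hN : (N : ℤ) = w) (b κ : ℂ) (y : Fin N × Dir) :
    (XT O j h0 h1 j2).incW (qT w h j (w6 + κ) b) (rcr 0 (j - 1) y) =
      ∑ m ∈ range (N + 1), ∑ l ∈ range ((Ti w h j).card + 1),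
        ∑ s ∈ (CN h j).powerset, κ ^ m * (1 - b * (1 - b)) ^ l *
          ((∏ e ∈ s, qC j b e) * ∏ e ∈ CN h j \ s, (1 - qC j b e)) *
          HC O h0 h1 j2 y m l s := by
  have hw := O.hw
  have h2 := O.h2
  obtain rfl : N = w.toNat := by omega
  have e1 : wA (rl (N := w.toNat) 0 (j - 1)) (rp 0 (j - 1)) (qT w h j (w6 + κ) b) =
      fun _ => zt ^ 4 + κ := by
    funext c; rw [wA_row hN g0 g1 c, w6_zt]
  have e2 : wB (rl (N := w.toNat) 0 (j - 1)) (rp 0 (j - 1)) (qT w h j (w6 + κ) b) =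
      fun _ => zt ^ (-4 : ℤ) - κ := by
    funext c
    rw [wB_row hN g0 g1 c, ← w6_zt', w6_inv]
    ring
  rw [incW_row (hasRow_XT O h0 h1 j2 g0 g1), e1, e2]
  have e3 : (XT O j h0 h1 j2).E \ RS w.toNat 0 (j - 1) =
      CN h j ∪ (Ti w h j ∪ (BL w j ∅ ∪ BU w h j ∅)) := by
    rw [XT_E, ET_sdiff O g0 g1 j2, TI_eq g0 g1 j2 h2, BK_eq (by omega) g0 g1]
  rw [e3]
  have e4 : Ec (qT w h j (w6 + κ) b) (CN h j ∪ (Ti w h j ∪ (BL w j ∅ ∪ BU w h j ∅)))
      (AR (XT O j h0 h1 j2) 0 (j - 1) y (fun _ => zt ^ 4 + κ) (fun _ => zt ^ (-4 : ℤ) - κ)) =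
      Ec (qT w h j (w6 + κ) b) (CN h j ∪ (Ti w h j ∪ (BL w j ∅ ∪ BU w h j ∅)))
      (fun ω => ∑ m ∈ range (w.toNat + 1), κ ^ m *
        ∑ S ∈ powersetCard m (univ : Finset (Fin w.toNat)),
          AR (XT O j h0 h1 j2) 0 (j - 1) y (cA S (zt ^ 4)) (cB S (zt ^ (-4 : ℤ))) ω) := by
    refine Ec_congr fun ω _ => ?_
    rw [AR_coupons]
    have h3 := sum_powerset (univ : Finset (Fin w.toNat)) (fun S => κ ^ S.card *
      AR (XT O j h0 h1 j2) 0 (j - 1) y (cA S (zt ^ 4)) (cB S (zt ^ (-4 : ℤ))) ω)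
    rw [powerset_univ, card_univ, Fintype.card_fin] at h3
    rw [h3]
    refine sum_congr rfl fun m _ => ?_
    rw [mul_sum]
    refine sum_congr rfl fun S hS => ?_
    rw [(mem_powersetCard.1 hS).2]
  have d1 : Disjoint (CN h j) (Ti w h j ∪ (BL w j ∅ ∪ BU w h j ∅)) := by
    rw [← TI_eq g0 g1 j2 h2, ← BK_eq (by omega) g0 g1]
    exact disj_CN (by omega) g0 g1 j2 h2
  have d2 : Disjoint (Ti w h j) (BL w j ∅ ∪ BU w h j ∅) := by
    rw [← TI_eq g0 g1 j2 h2, ← BK_eq (by omega) g0 g1]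
    exact disj_TI_BK (by omega) g0 g1 j2 h2
  rw [e4, expand_poly' (lam := 1 - b * (1 - b)) d1 d2
    (fun e he => qT_TI (by omega) g0 g1 j2 h2 (by rwa [TI_eq g0 g1 j2 h2]))
    (fun e he => qT_bulk g0 g1 he)]
  refine sum_congr rfl fun m _ => sum_congr rfl fun l _ => sum_congr rfl fun s hs => ?_
  have hs := mem_powerset.1 hs
  rw [prod_congr rfl (fun e he => qT_CN (a := w6 + κ) (b := b) (w := w) g0 g1 j2 h2 (hs he)),
    prod_congr (s₁ := CN h j \ s) rfl (fun e he => by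
      rw [qT_CN (a := w6 + κ) (b := b) (w := w) g0 g1 j2 h2 (mem_sdiff.1 he).1])]
  rfl

/-! ### The states of the two corner tiles -/

/-- the open corner tiles in the state `s` -/
def sgB (h j : ℤ) (s : Bool × Bool) : Finset (ℤ × ℤ) :=
  (if s.1 then {lt (-1, j)} else ∅) ∪ (if s.2 then ∅ else {lt (-1, h - 1)})

lemma sgB_sub (s : Bool × Bool) : sgB h j s ⊆ CN h j := by
  obtain ⟨s1, s2⟩ := s
  unfold sgB CN
  intro e he
  rw [mem_union] at he
  rw [mem_insert, mem_singleton]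
  cases s1 <;> cases s2 <;> simp_all

/-- the sum over the states of the corner tiles, both of them with the weights `b` (`true`), `1 - b` -/
theorem sum_CN (hne : j ≠ h - 1) (b : ℂ) (F : Finset (ℤ × ℤ) → ℂ) :
    ∑ s ∈ (CN h j).powerset, ((∏ e ∈ s, qC j b e) * ∏ e ∈ CN h j \ s, (1 - qC j b e)) * F s =
      ∑ s : Bool × Bool, ((if s.1 then b else 1 - b) * (if s.2 then b else 1 - b)) *
        F (sgB h j s) := by
  rw [← Ec_eq_sum]
  have h1 : lt (-1, j) ∉ ({lt (-1, h - 1)} : Finset (ℤ × ℤ)) := by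
    rw [mem_singleton, lt_eq_iff]
    rintro ⟨-, h3⟩
    exact hne h3
  have q1 : qC j b (lt (-1, j)) = b := by unfold qC; rw [if_pos rfl]
  have q2 : qC j b (lt (-1, h - 1)) = 1 - b := by
    unfold qC
    rw [if_neg]
    rw [lt_eq_iff]
    rintro ⟨-, h3⟩
    exact hne h3.symm
  have key : ∀ F : Finset (ℤ × ℤ) → ℂ, Ec (qC j b) {lt (-1, h - 1)} F =
      b * F ∅ + (1 - b) * F {lt (-1, h - 1)} := by
    intro F
    have h3 := Ec_insert (qC j b) (E := ∅) (e := lt (-1, h - 1)) (notMem_empty _) F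
    rw [insert_empty_eq, Ec_empty, Ec_empty, q2] at h3
    rw [h3, insert_empty_eq]
    ring
  unfold CN
  rw [Ec_insert _ h1, key, key, q1, Fintype.sum_prod_type, Fintype.sum_bool, Fintype.sum_bool,
    Fintype.sum_bool]
  have e1 : sgB h j (true, true) = {lt (-1, j)} := by unfold sgB; simp
  have e2 : sgB h j (true, false) = insert (lt (-1, j)) {lt (-1, h - 1)} := by
    unfold sgB
    simp only [if_true, Bool.false_eq_true, if_false]
    exact (insert_eq _ _).symm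
  have e3 : sgB h j (false, true) = ∅ := by unfold sgB; simp
  have e4 : sgB h j (false, false) = {lt (-1, h - 1)} := by unfold sgB; simp
  rw [e1, e2, e3, e4, insert_empty_eq]
  simp only [if_true, Bool.false_eq_true, if_false]
  ring

/-- **The exact expansion of the increments on the row.** -/
theorem FJ_expand2 (O : Out w h) (h0 : 0 ≤ j) (h1 : j ≤ h) (j2 : j % 2 = 0) (g0 : 0 < j)
    (g1 : j < h) (hr : ∀ g ∈ PT w h j, ¬ Ag g O.c0) (b κ : ℂ) (x0 : 0 ≤ x) (x1 : x < w) {N : ℕ}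
    (hN : (N : ℤ) = w) {y : Fin N × Dir} (hy : rcr 0 (j - 1) y = ve (x, j - 1)) :
    FJ O (w6 + κ) b j (ve (x, j - 1)) =
      ∑ m ∈ range (N + 1), ∑ l ∈ range ((Ti w h j).card + 1), ∑ s : Bool × Bool,
        κ ^ m * (1 - b * (1 - b)) ^ l * ((if s.1 then b else 1 - b) * (if s.2 then b else 1 - b)) *
          HC O h0 h1 j2 y m l (sgB h j s) := by
  have h2 := O.h2
  rw [FJ_eq h0 h1, ← XJ_tied_ve (j2 := j2) hr (not_PTp_row g0 g1 x0 x1 (Or.inl rfl))
      (not_PTp_row g0 g1 x0 x1 (Or.inr (by ring))), ← hy,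
    incW_expand2 O h0 h1 j2 g0 g1 hN b κ y]
  refine sum_congr rfl fun m _ => sum_congr rfl fun l _ => ?_
  have h3 := sum_CN (h := h) (j := j) (by omega) b
    (fun s => κ ^ m * (1 - b * (1 - b)) ^ l * HC O h0 h1 j2 y m l s)
  have e1 : ∑ s ∈ (CN h j).powerset, κ ^ m * (1 - b * (1 - b)) ^ l *
      ((∏ e ∈ s, qC j b e) * ∏ e ∈ CN h j \ s, (1 - qC j b e)) * HC O h0 h1 j2 y m l s =
      ∑ s ∈ (CN h j).powerset, ((∏ e ∈ s, qC j b e) * ∏ e ∈ CN h j \ s, (1 - qC j b e)) *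
        (κ ^ m * (1 - b * (1 - b)) ^ l * HC O h0 h1 j2 y m l s) :=
    sum_congr rfl fun s _ => by ring
  rw [e1, h3]
  exact sum_congr rfl fun s _ => by ring

end Pool.Agent.H76.R45
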