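import Mathlib
import Pool.Agent.H76.R45.Expand2
import Pool.Agent.H40.R45.Vz

set_option autoImplicit false
open Finset

/-! # The expansion in the form `Expd` -/

namespace Pool.Agent.H76.R45

open Pool.Agent.H75.Perc Pool.Agent.H75.TwoArm Pool.Agent.Q1 Pool.Agent.H33.Q1
open Pool.Agent.H81.G1 Pool.Agent.Q1.M6b.Gd
open Pool.Agent.H74.R45 Pool.Agent.H13.R45 Pool.Agent.H30.Mid Pool.Agent.H46.G1
open Pool.Agent.H40.R45

variable {w h j x : ℤ}

lemma card_RT_le (x0 x1 y0 y1 : ℤ) :
    (RT x0 x1 y0 y1).card ≤ (x1 - x0).toNat * (y1 - y0).toNat := by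
  unfold RT
  refine card_image_le.trans ?_
  rw [card_product, Int.card_Ico, Int.card_Ico]

/-- at most `h` ties -/
lemma card_Ti_le (g0 : 0 < j) (g1 : j < h) : (Ti w h j).card ≤ h.toNat := by
  unfold Ti
  refine (card_union_le _ _).trans ?_
  have h1 : (TiL h j).card ≤ (h - (j + 1)).toNat := by
    unfold TiL
    refine (card_filter_le _ _).trans ((card_RT_le _ _ _ _).trans ?_)
    have : ((0 : ℤ) - (-1)).toNat = 1 := by norm_num
    rw [this, one_mul]
  have h2 : (TiR w j).card ≤ (j - 1 - (-1)).toNat := by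
    unfold TiR
    refine (card_filter_le _ _).trans ((card_RT_le _ _ _ _).trans ?_)
    have : (w + 1 - w).toNat = 1 := by omega
    rw [this, one_mul]
  omega

/-- the coefficient of an index with too many ties is zero -/
lemma HC_zero {N : ℕ} (O : Out w h) (h0 : 0 ≤ j) (h1 : j ≤ h) (j2 : j % 2 = 0)
    (y : Fin N × Dir) (m : ℕ) {l : ℕ} (s : Finset (ℤ × ℤ)) (hl : (Ti w h j).card < l) :
    HC O h0 h1 j2 y m l s = 0 := by
  unfold HC
  rw [powersetCard_eq_empty.2 hl, sum_empty]

/-- the coefficient of an index with too many coupons is zero -/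
lemma HC_zero' {N : ℕ} (O : Out w h) (h0 : 0 ≤ j) (h1 : j ≤ h) (j2 : j % 2 = 0)
    (y : Fin N × Dir) {m : ℕ} (l : ℕ) (s : Finset (ℤ × ℤ)) (hm : N < m) :
    HC O h0 h1 j2 y m l s = 0 := by
  unfold HC
  refine sum_eq_zero fun v _ => ?_
  unfold alt
  refine sum_eq_zero fun T _ => ?_
  rw [powersetCard_eq_empty.2 (by rw [card_univ, Fintype.card_fin]; exact hm)]
  simp only [sum_empty]
  rw [Ec_const, mul_zero]

/-- the set of indices -/
def IX (M T : ℕ) : Finset Idx := range (M + 1) ×ˢ (range (T + 1) ×ˢ (univ : Finset (Bool × Bool)))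

/-- **The expansion** in the form `Expd`. -/
theorem expd (O : Out w h) (h0 : 0 ≤ j) (h1 : j ≤ h) (j2 : j % 2 = 0) (g0 : 0 < j)
    (g1 : j < h) (hr : ∀ g ∈ PT w h j, ¬ Ag g O.c0) (x0 : 0 ≤ x) (x1 : x < w) {N : ℕ}
    (hN : (N : ℤ) = w) {y : Fin N × Dir} (hy : rcr 0 (j - 1) y = ve (x, j - 1)) {M T : ℕ}
    (hM : N ≤ M) (hT : h.toNat ≤ T) :
    Expd O j x (IX M T) (fun n => HC O h0 h1 j2 y n.1 n.2.1 (sgB h j n.2.2)) := by
  have key : Expd O j x (IX N (Ti w h j).card)
      (fun n => HC O h0 h1 j2 y n.1 n.2.1 (sgB h j n.2.2)) := by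
    intro t
    have e : aT t = w6 + kapT t := by unfold kapT; ring
    rw [e, FJ_expand2 O h0 h1 j2 g0 g1 hr (bT t) (kapT t) x0 x1 hN hy]
    unfold IX
    rw [sum_product]
    refine sum_congr rfl fun m _ => ?_
    rw [sum_product]
    exact sum_congr rfl fun l _ => sum_congr rfl fun s _ => rfl
  refine key.mono ?_ ?_
  · unfold IX
    have := card_Ti_le (w := w) g0 g1
    exact product_subset_product (range_subset_range.2 (by omega))
      (product_subset_product (range_subset_range.2 (by omega)) (Subset.refl _))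
  · rintro ⟨m, l, s⟩ - hn
    unfold IX at hn
    rw [mem_product, mem_product, mem_range, mem_range] at hn
    simp only [mem_univ, and_true, not_and_or, not_lt] at hn
    rcases hn with hn | hn
    · exact HC_zero' O h0 h1 j2 y l _ (by omega)
    · exact HC_zero O h0 h1 j2 y m _ (show (Ti w h j).card < l by omega)

end Pool.Agent.H76.R45
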