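import Mathlib
import Pool.Agent.H76.R45.Expd
import Pool.Agent.Q1.M6b.HBdef

set_option autoImplicit false
open Finset

/-! # The expansion with the coefficients `HH` of chapter B -/

namespace Pool.Agent.H76.R45

open Pool.Agent.H75.Perc Pool.Agent.H75.TwoArm Pool.Agent.Q1 Pool.Agent.H33.Q1
open Pool.Agent.H81.G1 Pool.Agent.Q1.M6b.Gd
open Pool.Agent.H74.R45 Pool.Agent.H13.R45 Pool.Agent.H30.Mid Pool.Agent.H46.G1
open Pool.Agent.H40.R45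

variable {w h j x : ℤ}

lemma HC_eq {N : ℕ} (O : Out w h) (h0 : 0 ≤ j) (h1 : j ≤ h) (j2 : j % 2 = 0)
    (y : Fin N × Dir) (m l : ℕ) (s : Finset (ℤ × ℤ)) :
    HC O h0 h1 j2 y m l s = Pool.Agent.Q1.M6b.Gd.HH O h0 h1 j2 y m l s := by
  have e : (zt ^ 4 : ℂ) = zt ^ (4 : ℤ) := by
    rw [← zpow_natCast]; norm_num
  unfold HC Pool.Agent.Q1.M6b.Gd.HH
  rw [e]

lemma CN_eq : CN h j = Pool.Agent.Q1.M6b.AB.CN h j := rfl

/-- the states of the corner tiles -/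
lemma sgB_CN (s : Bool × Bool) : sgB h j s ⊆ Pool.Agent.Q1.M6b.AB.CN h j := sgB_sub s

/-- **The expansion** in the form `Expd`, coefficients `HH`. -/
theorem expdHH (O : Out w h) (h0 : 0 ≤ j) (h1 : j ≤ h) (j2 : j % 2 = 0) (g0 : 0 < j)
    (g1 : j < h) (hr : ∀ g ∈ PT w h j, ¬ Ag g O.c0) (x0 : 0 ≤ x) (x1 : x < w) {N : ℕ}
    (hN : (N : ℤ) = w) {y : Fin N × Dir} (hy : rcr 0 (j - 1) y = ve (x, j - 1)) {M T : ℕ}
    (hM : N ≤ M) (hT : h.toNat ≤ T) :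
    Expd O j x (IX M T) (fun n => Pool.Agent.Q1.M6b.Gd.HH O h0 h1 j2 y n.1 n.2.1 (sgB h j n.2.2)) := by
  have key := expd O h0 h1 j2 g0 g1 hr x0 x1 hN hy hM hT
  simp only [HC_eq] at key
  exact key

end Pool.Agent.H76.R45
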