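import Mathlib
import Pool.Agent.H76.R45.ExpdH
import Pool.Agent.Q1.M6b.TayOf
import Pool.Agent.Q1.M6b.FB

set_option autoImplicit false
open Finset

/-! # `Exp45` -/

namespace Pool.Agent.H76.R45

open Pool.Agent.H75.Perc hiding AR VV
open Pool.Agent.H75.TwoArm hiding EF
open Pool.Agent.Q1 Pool.Agent.H74.R45 Pool.Agent.H40.R45 Pool.Agent.H81.G1
open Pool.Agent.H30.Mid Pool.Agent.H46.G1 Pool.Agent.H13.R45
open Pool.Agent.Q1.M6b.AB

/-- **The exact expansion in the couplings.** -/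
theorem exp45 : Exp45 := by
  intro w h O hR p x0 x1 g0 g1 h0 h1 j2 N hN y _ hyc
  refine ⟨IX N h.toNat, fun n => Pool.Agent.Q1.M6b.Gd.HH O h0 h1 j2 y n.1 n.2.1
    (sgB h p.2 n.2.2), ?_, fun n => Or.inr ⟨sgB h p.2 n.2.2, sgB_CN _, rfl⟩⟩
  exact expdHH O h0 h1 j2 g0 g1 (far_root O h0 h1 (rootFar hR)) x0.le x1 hN hyc le_rfl le_rfl

end Pool.Agent.H76.R45
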